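import Pool.Agent.Helper77.SD.St

set_option autoImplicit false

namespace Pool.Agent.Helper94.SD

open Pool.Agent.Helper77.SD
open MeasureTheory Metric Set
open scoped Gradient RealInnerProductSpace ENNReal

variable {d : ℕ}

/-- applying a field of operators to a field of vectors -/
private lemma EST_aesm {A : E d → E d →L[ℝ] E d} {X : E d → E d}
    (hA : AEStronglyMeasurable A volume) (hX : AEStronglyMeasurable X volume) :
    AEStronglyMeasurable (fun x => A x (X x)) volume :=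
  (ContinuousLinearMap.id ℝ (E d →L[ℝ] E d)).aestronglyMeasurable_comp₂ hA hX

private lemma EST_l2_app {A : E d → E d →L[ℝ] E d} {X : E d → E d} {K : ℝ}
    (hA : AEStronglyMeasurable A volume) (hX : L2 X) (hK : ∀ x, ‖A x‖ ≤ K) :
    L2 (fun x => A x (X x)) := by
  refine l2_of_le (K := K) hX (EST_aesm hA hX.1) fun x => ?_
  exact (A x).le_of_opNorm_le (hK x) (X x)

/-- multiplication with a bounded function -/
private lemma EST_l2_mul {h f : E d → ℝ} {K : ℝ} (hh : AEStronglyMeasurable h volume) (hf : L2 f)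
    (hK : ∀ x, |h x| ≤ K) : L2 (fun x => h x * f x) := by
  refine l2_of_le (K := K) hf (hh.mul hf.1) fun x => ?_
  rw [norm_mul, Real.norm_eq_abs]
  exact mul_le_mul_of_nonneg_right (hK x) (norm_nonneg _)

private lemma EST_bd_mul {h f g : E d → ℝ} {K : ℝ} (hh : AEStronglyMeasurable h volume) (hf : L2 f)
    (hg : L2 g) (hK : ∀ x, |h x| ≤ K) :
    Integrable (fun x => h x * (f x * g x)) ∧ |∫ x, h x * (f x * g x)| ≤ K * (nrm f * nrm g) := by
  have h0 : 0 ≤ K := le_trans (abs_nonneg _) (hK 0)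
  have h1 := EST_l2_mul hh hf hK
  have e : (fun x => h x * (f x * g x)) = fun x => (h x * f x) * g x := by
    funext x; ring
  rw [e]
  refine ⟨integrable_mul h1 hg, ?_⟩
  refine (abs_integral_mul_le h1 hg).trans ?_
  rw [← mul_assoc]
  refine mul_le_mul_of_nonneg_right ?_ (nrm_nonneg _)
  refine nrm_le_of_le h0 hf fun x => ?_
  rw [norm_mul, Real.norm_eq_abs]
  exact mul_le_mul_of_nonneg_right (hK x) (norm_nonneg _)

/-- inner product with a bounded field -/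
private lemma EST_l2_inner {Z : E d → E d} {F : E d → E d} {K : ℝ} (hZ : AEStronglyMeasurable Z volume)
    (hF : L2 F) (hK : ∀ x, ‖Z x‖ ≤ K) : L2 (fun x => ⟪Z x, F x⟫) ∧ nrm (fun x => ⟪Z x, F x⟫) ≤ K * nrm F := by
  have h0 : 0 ≤ K := le_trans (norm_nonneg _) (hK 0)
  have h1 : ∀ x, ‖(⟪Z x, F x⟫ : ℝ)‖ ≤ K * ‖F x‖ := fun x =>
    (norm_inner_le_norm _ _).trans (mul_le_mul_of_nonneg_right (hK x) (norm_nonneg _))
  exact ⟨l2_of_le hF (hZ.inner hF.1) h1, nrm_le_of_le h0 hF h1⟩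

private lemma EST_bd_inner {Z F Γ : E d → E d} {f g : E d → ℝ} {K : ℝ}
    (hZ : AEStronglyMeasurable Z volume) (hF : L2 F) (hΓ : L2 Γ) (hf : L2 f) (hg : L2 g)
    (hK : ∀ x, ‖Z x‖ ≤ K) :
    Integrable (fun x => ⟪Z x, g x • F x + f x • Γ x⟫) ∧
    |∫ x, ⟪Z x, g x • F x + f x • Γ x⟫| ≤ K * (nrm F * nrm g + nrm f * nrm Γ) := by
  obtain ⟨a1, a2⟩ := EST_l2_inner hZ hF hK
  obtain ⟨b1, b2⟩ := EST_l2_inner hZ hΓ hK
  have e : (fun x => (⟪Z x, g x • F x + f x • Γ x⟫ : ℝ)) = fun x => ⟪Z x, F x⟫ * g x + ⟪Z x, Γ x⟫ * f x := by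
    funext x
    rw [inner_add_right, real_inner_smul_right, real_inner_smul_right]
    ring
  rw [e]
  have i1 := integrable_mul a1 hg
  have i2 := integrable_mul b1 hf
  refine ⟨i1.add i2, ?_⟩
  rw [integral_add i1 i2]
  refine (abs_add_le _ _).trans ?_
  have c1 := abs_integral_mul_le a1 hg
  have c2 := abs_integral_mul_le b1 hf
  have d1 := mul_le_mul_of_nonneg_right a2 (nrm_nonneg g)
  have d2 := mul_le_mul_of_nonneg_right b2 (nrm_nonneg f)
  nlinarith [c1, c2, d1, d2]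

private lemma EST_lin {u v : E d → ℝ} (hu : Integrable u) (hv : Integrable v) (a : ℝ) :
    (∫ x, (u x + a * v x)) = (∫ x, u x) + a * (∫ x, v x) ∧ Integrable (fun x => u x + a * v x) := by
  refine ⟨?_, hu.add (hv.const_mul a)⟩
  rw [integral_add hu (hv.const_mul a), integral_const_mul]

private lemma EST_fin (I1 I2 I3 J4 J7 J8 J9 J12 τ t2 ε K L m N1 N2 R : ℝ)
    (T : (I1 + 2 * τ * I2 - τ * 0 - 1 / 2 * J4 - 1 / 2 * (-J8) - t2 * I3 + 1 / 4 * J7) + J12 = J9)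
    (h4 : |J4| ≤ ε * N1) (h7 : |J7| ≤ L * N2) (h8 : |J8| ≤ K * N2) (h9 : |J9| ≤ m * N2) (h12 : |J12| ≤ R) :
    |I1 + 2 * τ * I2 - t2 * I3| ≤ ε / 2 * N1 + (K / 2 + L / 4 + m) * N2 + R := by
  rw [abs_le] at h4 h7 h8 h9 h12 ⊢
  constructor
  · linarith [T, h4.1, h4.2, h7.1, h7.2, h8.1, h8.2, h9.1, h9.2, h12.1, h12.2]
  · linarith [T, h4.1, h4.2, h7.1, h7.2, h8.1, h8.2, h9.1, h9.2, h12.1, h12.2]

theorem hEST (h1 : StTID) (h2 : StDIVH) : StEST := by
  intro d l η B c lam Λ c0 c1 P δ M τ A V u G W ε K hMet hCo hSol hH hτ hW hWε hWK g Γ hg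
  set f := tf c τ η u with hf_def
  set F := tF c τ η u G with hF_def
  have hf : L2 f := hH.l2
  have hF : L2 F := hH.l2G
  have hg2 : L2 g := hg.l2
  have hΓ : L2 Γ := hg.l2G
  -- continuity
  have cpos : ∀ x, 0 < c x := fun x => lt_of_lt_of_le hMet.c0_pos (hMet.lo x)
  have cc : Continuous c := hMet.smooth.continuous
  have ccinv : Continuous (fun x => (c x)⁻¹) := cc.inv₀ fun x => (cpos x).ne'
  have cp : Continuous (lg c) := by
    unfold lg
    exact ccinv.smul (continuous_grad hMet.smooth)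
  have hP : ∀ x, ‖lg c x‖ ≤ P := hMet.bddc
  have cinv_le : ∀ x, (c x)⁻¹ ≤ c0⁻¹ := fun x => inv_anti₀ hMet.c0_pos (hMet.lo x)
  have cinv_nonneg : ∀ x, 0 ≤ (c x)⁻¹ := fun x => (inv_pos.2 (cpos x)).le
  have hM : 0 ≤ M := le_trans (abs_nonneg _) (hCo.bddV 0)
  have hδ : 0 ≤ δ := le_trans (norm_nonneg _) (hCo.close 0)
  have hΛ : 0 ≤ Λ := le_trans (norm_nonneg _) (hMet.bddB 0)
  have hY : 0 ≤ τ * ‖η‖ + P := by
    have := mul_nonneg hτ (norm_nonneg η)
    have := hMet.P_nonneg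
    linarith
  set Y := τ * ‖η‖ + P with hY_def
  -- alpha, beta
  have hα : ∀ x, ‖τ • η + (1 / 2 : ℝ) • lg c x‖ ≤ Y := by
    intro x
    have e1 : ‖τ • η‖ = τ * ‖η‖ := by rw [norm_smul, Real.norm_eq_abs, abs_of_nonneg hτ]
    have e2 : ‖(1 / 2 : ℝ) • lg c x‖ = 1 / 2 * ‖lg c x‖ := by
      rw [norm_smul, Real.norm_eq_abs, abs_of_nonneg (by norm_num)]
    have e3 := norm_add_le (τ • η) ((1 / 2 : ℝ) • lg c x)
    have e4 := hP x
    have e5 := norm_nonneg (lg c x)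
    rw [e1, e2] at e3
    linarith
  have hβ : ∀ x, ‖τ • η - (1 / 2 : ℝ) • lg c x‖ ≤ Y := by
    intro x
    have e1 : ‖τ • η‖ = τ * ‖η‖ := by rw [norm_smul, Real.norm_eq_abs, abs_of_nonneg hτ]
    have e2 : ‖(1 / 2 : ℝ) • lg c x‖ = 1 / 2 * ‖lg c x‖ := by
      rw [norm_smul, Real.norm_eq_abs, abs_of_nonneg (by norm_num)]
    have e3 := norm_sub_le (τ • η) ((1 / 2 : ℝ) • lg c x)
    have e4 := hP x
    have e5 := norm_nonneg (lg c x)
    rw [e1, e2] at e3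
    linarith
  have cp2 : Continuous (fun x => (1 / 2 : ℝ) • lg c x) := by
    have h := Continuous.const_smul cp (1 / 2 : ℝ)
    exact h
  have cα : Continuous (fun x => τ • η + (1 / 2 : ℝ) • lg c x) := continuous_const.add cp2
  have cβ : Continuous (fun x => τ • η - (1 / 2 : ℝ) • lg c x) := continuous_const.sub cp2
  have sα : ∀ x, ‖f x • (τ • η + (1 / 2 : ℝ) • lg c x)‖ ≤ Y * ‖f x‖ := fun x => by
    rw [norm_smul, mul_comm]
    exact mul_le_mul_of_nonneg_right (hα x) (norm_nonneg _)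
  have sβ : ∀ x, ‖g x • (τ • η - (1 / 2 : ℝ) • lg c x)‖ ≤ Y * ‖g x‖ := fun x => by
    rw [norm_smul, mul_comm]
    exact mul_le_mul_of_nonneg_right (hβ x) (norm_nonneg _)
  have hfα : L2 (fun x => f x • (τ • η + (1 / 2 : ℝ) • lg c x)) :=
    l2_of_le hf (hf.1.smul cα.aestronglyMeasurable) sα
  have hgβ : L2 (fun x => g x • (τ • η - (1 / 2 : ℝ) • lg c x)) :=
    l2_of_le hg2 (hg2.1.smul cβ.aestronglyMeasurable) sβ
  have hX : L2 (fun x => F x - f x • (τ • η + (1 / 2 : ℝ) • lg c x)) := hF.sub hfα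
  have hZ : L2 (fun x => Γ x + g x • (τ • η - (1 / 2 : ℝ) • lg c x)) := hΓ.add hgβ
  have nX : nrm (fun x => F x - f x • (τ • η + (1 / 2 : ℝ) • lg c x)) ≤ nrm F + Y * nrm f :=
    (nrm_sub_le hF hfα).trans (add_le_add le_rfl (nrm_le_of_le hY hf sα))
  have nZ : nrm (fun x => Γ x + g x • (τ • η - (1 / 2 : ℝ) • lg c x)) ≤ nrm Γ + Y * nrm g :=
    (nrm_add_le hΓ hgβ).trans (add_le_add le_rfl (nrm_le_of_le hY hg2 sβ))
  -- the field B
  have mB : AEStronglyMeasurable B volume := hMet.contB.aestronglyMeasurable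
  have hBX : L2 (fun x => B x (F x - f x • (τ • η + (1 / 2 : ℝ) • lg c x))) := EST_l2_app mB hX hMet.bddB
  have hBF : L2 (fun x => B x (F x)) := EST_l2_app mB hF hMet.bddB
  have cBp : Continuous (fun x => B x (lg c x)) := hMet.contB.clm_apply cp
  have bBp : ∀ x, ‖B x (lg c x)‖ ≤ Λ * P := fun x =>
    ((B x).le_of_opNorm_le (hMet.bddB x) _).trans (mul_le_mul_of_nonneg_left (hP x) hΛ)
  -- the field D
  have mD : AEStronglyMeasurable (fun x => (c x)⁻¹ • A x - B x) volume :=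
    (ccinv.aestronglyMeasurable.smul hCo.measA.aestronglyMeasurable).sub mB
  have bD : ∀ x, ‖(c x)⁻¹ • A x - B x‖ ≤ δ / c0 := by
    intro x
    have e : (c x)⁻¹ • A x - B x = (c x)⁻¹ • (A x - c x • B x) := by
      rw [smul_sub, smul_smul, inv_mul_cancel₀ (cpos x).ne', one_smul]
    rw [e, norm_smul, Real.norm_eq_abs, abs_of_nonneg (cinv_nonneg x), div_eq_inv_mul]
    exact mul_le_mul (cinv_le x) (hCo.close x) (norm_nonneg _) (inv_nonneg.2 hMet.c0_pos.le)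
  have hDX : L2 (fun x => ((c x)⁻¹ • A x - B x) (F x - f x • (τ • η + (1 / 2 : ℝ) • lg c x))) :=
    EST_l2_app mD hX bD
  have nDX : nrm (fun x => ((c x)⁻¹ • A x - B x) (F x - f x • (τ • η + (1 / 2 : ℝ) • lg c x))) ≤
      δ / c0 * nrm (fun x => F x - f x • (τ • η + (1 / 2 : ℝ) • lg c x)) :=
    nrm_le_of_le (div_nonneg hδ hMet.c0_pos.le) hX fun x =>
      (((c x)⁻¹ • A x - B x).le_of_opNorm_le (bD x) _)
  -- TID
  have T1 := h1 d l η B c lam Λ c0 c1 P δ M τ A V u G hMet hCo hSol hH g Γ hg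
  rw [← hf_def, ← hF_def] at T1
  have iBX := integrable_inner hBX hZ
  have iDX := integrable_inner hDX hZ
  have T2 : (∫ x, ⟪B x (F x - f x • (τ • η + (1 / 2 : ℝ) • lg c x)), Γ x + g x • (τ • η - (1 / 2 : ℝ) • lg c x)⟫) +
      (∫ x, ⟪((c x)⁻¹ • A x - B x) (F x - f x • (τ • η + (1 / 2 : ℝ) • lg c x)),
        Γ x + g x • (τ • η - (1 / 2 : ℝ) • lg c x)⟫) =
      ∫ x, (c x)⁻¹ * (V x * (f x * g x)) := by
    rw [← integral_add iBX iDX, ← T1]
    refine integral_congr_ae (Filter.Eventually.of_forall fun x => ?_)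
    simp only
    rw [sub_apply, smul_apply, inner_sub_left, real_inner_smul_left]
    ring
  -- the divergence theorem for the constant field and for W
  have bW : ∀ x, ‖W x‖ ≤ Λ * P + ε := by
    intro x
    have e1 := norm_sub_le (B x (lg c x)) (B x (lg c x) - W x)
    rw [sub_sub_cancel] at e1
    have := bBp x
    have := hWε x
    linarith
  have DW := h2 d W K (Λ * P + ε) hW bW hWK f g F Γ hH hg
  have Dl : ∫ x, ⟪l, g x • F x + f x • Γ x⟫ = 0 := by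
    have h := h2 d (fun _ => l) 0 ‖l‖ contDiff_const (fun _ => le_rfl) (fun x => by simp [dv]) f g F Γ hH hg
    rw [h]
    simp [dv]
  have cW : Continuous W := hW.continuous
  have cdv : Continuous (fun x => dv W x) := by
    unfold dv
    refine continuous_finsetSum _ fun i _ => ?_
    have h3 : Continuous (fun x => fderiv ℝ W x (EuclideanSpace.single i (1 : ℝ))) :=
      (hW.continuous_fderiv (by norm_num)).clm_apply continuous_const
    exact (EuclideanSpace.proj (𝕜 := ℝ) i).continuous.comp h3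
  -- integrability
  have i1 := integrable_inner hBF hΓ
  have l2l : L2 (fun x => (⟪F x, l⟫ : ℝ)) := by
    have h := (EST_l2_inner (Z := fun _ => l) aestronglyMeasurable_const hF (fun _ => le_rfl)).1
    simpa [real_inner_comm] using h
  have i2 := integrable_mul l2l hg2
  have i3 := (EST_bd_inner (Z := fun _ => l) aestronglyMeasurable_const hF hΓ hf hg2 (fun _ => le_rfl)).1
  obtain ⟨i4, b4⟩ := EST_bd_inner (Z := fun x => B x (lg c x) - W x) (cBp.sub cW).aestronglyMeasurable hF hΓ hf hg2 hWε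
  have i5 := (EST_bd_inner (Z := W) cW.aestronglyMeasurable hF hΓ hf hg2 bW).1
  have i6 := integrable_mul hf hg2
  have b7' : ∀ x, |(⟪B x (lg c x), lg c x⟫ : ℝ)| ≤ Λ * P ^ 2 := by
    intro x
    have e1 := abs_real_inner_le_norm (B x (lg c x)) (lg c x)
    have e2 := mul_le_mul (bBp x) (hP x) (norm_nonneg _) (mul_nonneg hΛ hMet.P_nonneg)
    calc _ ≤ _ := e1
      _ ≤ _ := e2
      _ = _ := by ring
  obtain ⟨i7, b7⟩ := EST_bd_mul (h := fun x => ⟪B x (lg c x), lg c x⟫) (cBp.inner cp).aestronglyMeasurable hf hg2 b7'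
  obtain ⟨i8, b8⟩ := EST_bd_mul (h := fun x => dv W x) cdv.aestronglyMeasurable hf hg2 hWK
  have b9' : ∀ x, |(c x)⁻¹ * V x| ≤ M / c0 := by
    intro x
    rw [abs_mul, abs_of_nonneg (cinv_nonneg x), div_eq_inv_mul]
    exact mul_le_mul (cinv_le x) (hCo.bddV x) (abs_nonneg _) (inv_nonneg.2 hMet.c0_pos.le)
  obtain ⟨i9, b9⟩ := EST_bd_mul (h := fun x => (c x)⁻¹ * V x)
    (ccinv.aestronglyMeasurable.mul hCo.measV.aestronglyMeasurable) hf hg2 b9'
  have e9 : ∫ x, (c x)⁻¹ * (V x * (f x * g x)) = ∫ x, (c x)⁻¹ * V x * (f x * g x) := by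
    congr 1; funext x; ring
  rw [e9] at T2
  -- the expansion
  have T3 : (∫ x, ⟪B x (F x - f x • (τ • η + (1 / 2 : ℝ) • lg c x)), Γ x + g x • (τ • η - (1 / 2 : ℝ) • lg c x)⟫) =
      (∫ x, ⟪B x (F x), Γ x⟫) + 2 * τ * (∫ x, ⟪F x, l⟫ * g x) - τ * (∫ x, ⟪l, g x • F x + f x • Γ x⟫) -
      1 / 2 * (∫ x, ⟪B x (lg c x) - W x, g x • F x + f x • Γ x⟫) - 1 / 2 * (∫ x, ⟪W x, g x • F x + f x • Γ x⟫) -
      τ ^ 2 * ⟪l, η⟫ * (∫ x, f x * g x) + 1 / 4 * (∫ x, ⟪B x (lg c x), lg c x⟫ * (f x * g x)) := by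
    obtain ⟨q1, j1⟩ := EST_lin i1 i2 (2 * τ)
    obtain ⟨q2, j2⟩ := EST_lin j1 i3 (-τ)
    obtain ⟨q3, j3⟩ := EST_lin j2 i4 (-(1 / 2))
    obtain ⟨q4, j4⟩ := EST_lin j3 i5 (-(1 / 2))
    obtain ⟨q5, j5⟩ := EST_lin j4 i6 (-(τ ^ 2 * ⟪l, η⟫))
    obtain ⟨q6, j6⟩ := EST_lin j5 i7 (1 / 4)
    rw [q1] at q2
    rw [q2] at q3
    rw [q3] at q4
    rw [q4] at q5
    rw [q5] at q6
    refine Eq.trans ?_ (q6.trans (by ring))
    refine integral_congr_ae (Filter.Eventually.of_forall fun x => ?_)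
    have s1 : (⟪B x (F x), η⟫ : ℝ) = ⟪F x, l⟫ := by rw [hMet.symm, hMet.eta]
    have s2 : (⟪B x (F x), lg c x⟫ : ℝ) = ⟪B x (lg c x), F x⟫ := by rw [hMet.symm, real_inner_comm]
    have s3 : (⟪B x (lg c x), η⟫ : ℝ) = ⟪l, lg c x⟫ := by rw [hMet.symm, hMet.eta, real_inner_comm]
    simp only [map_sub, map_smul, map_add, hMet.eta x, inner_sub_left, inner_add_left, inner_add_right,
      inner_sub_right, real_inner_smul_left, real_inner_smul_right, smul_add, smul_sub]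
    rw [s1, s2, s3, real_inner_comm l (F x)]
    ring
  rw [T3, Dl, DW] at T2
  have b10 := abs_integral_inner_le hDX hZ
  have b11 : nrm (fun x => ((c x)⁻¹ • A x - B x) (F x - f x • (τ • η + (1 / 2 : ℝ) • lg c x))) *
      nrm (fun x => Γ x + g x • (τ • η - (1 / 2 : ℝ) • lg c x)) ≤
      δ / c0 * ((nrm F + Y * nrm f) * (nrm Γ + Y * nrm g)) := by
    rw [← mul_assoc]
    have hd := div_nonneg hδ hMet.c0_pos.le
    exact mul_le_mul (nDX.trans (mul_le_mul_of_nonneg_left nX hd)) nZ (nrm_nonneg _)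
      (mul_nonneg hd (add_nonneg (nrm_nonneg _) (mul_nonneg hY (nrm_nonneg _))))
  have b12 := b10.trans b11
  exact EST_fin _ _ _ _ _ _ _ _ _ _ _ _ _ _ _ _ _ T2 b4 b7 b8 b9 b12

end Pool.Agent.Helper94.SD
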